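import Pool.Agent.KK.StmtsW

/-! MP_747bc0_co, squad KK, block BETA, rows SRV SCO PCO. -/

set_option autoImplicit false

namespace Pool.Agent.KK.H42

variable {V : Type} [Fintype V] [DecidableEq V]

theorem fr_reverse (s : List (Slot V)) : fr s.reverse = fr s := by
  unfold fr
  rw [List.countP_reverse]

theorem badC_reverse (H : Finset (Finset V)) (X : Finset V) (s : List (Slot V)) :
    BadC H X s.reverse = List.reverse '' BadC H X s := by
  ext e
  constructor
  · rintro ⟨h1, h2, h3⟩
    refine ⟨e.reverse, ⟨?_, ?_, ?_⟩, List.reverse_reverse e⟩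
    · rw [← List.forall₂_reverse_iff, List.reverse_reverse]
      exact h1
    · exact List.nodup_reverse.2 h2
    · rw [List.toFinset_reverse]
      exact h3
  · rintro ⟨e', ⟨h1, h2, h3⟩, rfl⟩
    refine ⟨?_, ?_, ?_⟩
    · rw [List.forall₂_reverse_iff]
      exact h1
    · exact List.nodup_reverse.2 h2
    · rw [List.toFinset_reverse]
      exact h3

theorem oks_reverse (H : Finset (Finset V)) (X : Finset V) (ε : ℝ) (s : List (Slot V))
    (h : OKs H X ε s) : OKs H X ε s.reverse := by
  unfold OKs at *
  rw [badC_reverse, Set.ncard_image_of_injective _ List.reverse_injective, fr_reverse]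
  exact h

theorem okl_reverse (H : Finset (Finset V)) (X : Finset V) (k : ℕ) (ε : ℝ) (L : List (Slot V))
    (h : OKl H X k ε L) : OKl H X k ε L.reverse := by
  intro s hs hk
  have h1 : s.reverse <:+: L := by
    rw [← List.reverse_infix, List.reverse_reverse]
    exact hs
  have h2 := h s.reverse h1 (by rw [List.length_reverse]; exact hk)
  have h3 := oks_reverse H X ε _ h2
  rwa [List.reverse_reverse] at h3

theorem fw_reverse (u : List Bool) : (fw u.reverse : List (Slot V)) = (fw u).reverse := by
  unfold fw
  rw [List.map_reverse]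

theorem vx_reverse (u : List V) : (vx u.reverse : List (Slot V)) = (vx u).reverse := by
  unfold vx
  rw [List.map_reverse]

theorem srv : SrvStmt := by
  intro V _ _ H X k ε K uL c uR h Z hZ
  obtain ⟨l, h1, h2, h3, h4⟩ := h Z hZ
  refine ⟨l.reverse, List.nodup_reverse.2 h1, fun v hv => h2 v (List.mem_reverse.1 hv), ?_, ?_⟩
  · rw [List.map_reverse, h3]
  · have h5 := okl_reverse H X k ε _ h4
    rw [List.reverse_append, List.reverse_append, ← fw_reverse, ← fw_reverse, ← vx_reverse,
      ← List.append_assoc] at h5
    exact h5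

/-- complement of a slot -/
def cs : Slot V → Slot V := Sum.map id not

theorem fit_cs (X : Finset V) (s : Slot V) (w : V) : Fit Xᶜ (cs s) w ↔ Fit X s w := by
  cases s with
  | inl v => rfl
  | inr b =>
    change (w ∈ Xᶜ ↔ (!b) = true) ↔ (w ∈ X ↔ b = true)
    rw [Finset.mem_compl]
    cases b <;> simp

theorem fr_cs (s : List (Slot V)) : fr (s.map cs) = fr s := by
  unfold fr
  rw [List.countP_map]
  congr 1
  funext x
  cases x <;> rfl

theorem forall2_cs (X : Finset V) (s : List (Slot V)) (e : List V) :
    List.Forall₂ (Fit Xᶜ) (s.map cs) e ↔ List.Forall₂ (Fit X) s e := by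
  rw [List.forall₂_map_left_iff]
  constructor
  · intro h
    exact h.imp fun a b hab => (fit_cs X a b).1 hab
  · intro h
    exact h.imp fun a b hab => (fit_cs X a b).2 hab

theorem badC_cs (H : Finset (Finset V)) (X : Finset V) (s : List (Slot V)) :
    BadC H Xᶜ (s.map cs) = BadC H X s := by
  ext e
  unfold BadC
  simp only [Set.mem_setOf_eq]
  rw [forall2_cs]

theorem okl_cs (H : Finset (Finset V)) (X : Finset V) (k : ℕ) (ε : ℝ) (L : List (Slot V))
    (h : OKl H X k ε L) : OKl H Xᶜ k ε (L.map cs) := by
  intro s hs hk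
  obtain ⟨s', hs', rfl⟩ : ∃ s', s' <:+: L ∧ s'.map cs = s := by
    obtain ⟨t, u, htu⟩ := hs
    obtain ⟨a, b, hab, h1, h2⟩ := List.map_eq_append_iff.1 htu.symm
    obtain ⟨a', b', hab', h3, h4⟩ := List.map_eq_append_iff.1 h1
    exact ⟨b', ⟨a', b, by rw [hab, hab']⟩, h4⟩
  rw [List.length_map] at hk
  have h2 := h s' hs' hk
  unfold OKs at *
  rw [badC_cs, fr_cs]
  exact h2

theorem fw_cs (u : List Bool) : ((fw u).map cs : List (Slot V)) = fw (u.map not) := by
  unfold fw
  rw [List.map_map, List.map_map]
  rfl

theorem vx_cs (u : List V) : ((vx u).map cs : List (Slot V)) = vx u := by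
  unfold vx
  rw [List.map_map]
  rfl

theorem sup_cs (H : Finset (Finset V)) (X : Finset V) (k : ℕ)
    (ε : ℝ) (K : ℕ) (uL c uR : List Bool) (h : Sup H X k ε K uL c uR) :
    Sup H Xᶜ k ε K (uL.map not) (c.map not) (uR.map not) := by
  intro Z hZ
  obtain ⟨l, h1, h2, h3, h4⟩ := h Z hZ
  refine ⟨l, h1, h2, ?_, ?_⟩
  · rw [← h3, List.map_map]
    refine List.map_congr_left fun v _ => ?_
    simp only [Function.comp, Finset.mem_compl, decide_not]
  · have h5 := okl_cs H X k ε _ h4
    rw [List.map_append, List.map_append, fw_cs, fw_cs, vx_cs] at h5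
    exact h5

theorem map_not_not (u : List Bool) : (u.map not).map not = u := by
  rw [List.map_map]
  have : (not ∘ not) = id := by
    funext b
    cases b <;> rfl
  rw [this, List.map_id]

theorem sco : ScoStmt := by
  intro V _ _ H X k ε K uL c uR
  constructor
  · exact sup_cs H X k ε K uL c uR
  · intro h
    have h2 := sup_cs H Xᶜ k ε K _ _ _ h
    rwa [compl_compl, map_not_not, map_not_not, map_not_not] at h2

theorem pl_len (H : Finset (Finset V)) (X : Finset V) (k p : ℕ)
    (ε : ℝ) (K : ℕ) (u v : List Bool) (N a q : ℕ) (h : Pl V H X k p ε K u v N a q) :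
    u.length = k - 1 ∧ v.length = k - 1 := by
  induction h with
  | nil h => exact ⟨h, h⟩
  | letter v N a q b _ _ ih =>
    refine ⟨ih.1, ?_⟩
    rw [List.length_tail, List.length_append, ih.2]
    simp
  | gadget v N a q c uR _ _ _ h3 _ ih => exact ⟨ih.1, h3⟩

theorem wt_not (u : List Bool) : wt (u.map not) + wt u = u.length := by
  unfold wt
  induction u with
  | nil => rfl
  | cons b u ih =>
    cases b
    · simp only [List.map_cons, Bool.not_false, List.count_cons_self, List.length_cons]
      rw [List.count_cons_of_ne (by decide)]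
      omega
    · simp only [List.map_cons, Bool.not_true, List.count_cons_self, List.length_cons]
      rw [List.count_cons_of_ne (by decide)]
      omega

theorem pco' (H : Finset (Finset V)) (X : Finset V) (k p : ℕ)
    (ε : ℝ) (K : ℕ) (u v : List Bool) (N a q : ℕ) (hk : 1 ≤ k) (hp : p < 2)
    (h : Pl V H X k p ε K u v N a q) : a ≤ N ∧
      Pl V H Xᶜ k ((k + p) % 2) ε K (u.map not) (v.map not) N (N - a) q := by
  induction h with
  | nil h =>
    refine ⟨le_refl _, Pl.nil _ ?_⟩
    rw [List.length_map]
    exact h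
  | letter v N a q b hpl hw ih =>
    obtain ⟨ih1, ih2⟩ := ih
    have hl := pl_len H X k p ε K _ _ _ _ _ hpl
    have hb := wt_not [b]
    have hvb := wt_not (v ++ [b])
    simp only [List.length_cons, List.length_nil, List.length_append] at hb hvb
    have h3 := Pl.letter _ _ _ _ _ (!b) ih2 (by
      have e : v.map not ++ [!b] = (v ++ [b]).map not := by
        rw [List.map_append]
        rfl
      rw [e]
      omega)
    have e1 : N + 1 - (a + wt [b]) = N - a + wt [!b] := by
      have e2 : wt ([b].map not) = wt [!b] := rfl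
      omega
    refine ⟨by omega, ?_⟩
    rw [e1, List.map_tail, List.map_append]
    exact h3
  | gadget v N a q c uR hpl h1 h2 h3 hS ih =>
    obtain ⟨ih1, ih2⟩ := ih
    have hc := wt_not c
    have huR := wt_not uR
    have h4 := Pl.gadget _ _ _ _ _ (c.map not) (uR.map not) ih2 (by rw [List.length_map]; exact h1)
      (by rw [List.length_map]; exact h2) (by rw [List.length_map]; exact h3)
      (sup_cs H X k ε K _ _ _ hS)
    rw [List.length_map] at h4
    have e1 : N + c.length + (k - 1) - (a + wt c + wt uR) =
        N - a + wt (c.map not) + wt (uR.map not) := by omega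
    refine ⟨by omega, ?_⟩
    rw [e1]
    exact h4

theorem pco : PcoStmt := by
  intro V _ _ H X k p ε K u v N a q hk hp h
  exact pco' H X k p ε K u v N a q hk hp h

end Pool.Agent.KK.H42
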