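import Pool.Agent.KK.StmtsW
import Pool.Agent.Helper42_KK.W1
import Pool.Agent.Helper3_KK.CYC

/-! MP_747bc0_co, squad KK, block BETA, row LOL. -/

set_option autoImplicit false

namespace Pool.Agent.KK.H42

theorem kindL_to_kindR (hBLR : BlrStmt) (V : Type) [Fintype V] [DecidableEq V]
    (H : Finset (Finset V)) (X : Finset V) (k : ℕ) (ε : ℝ) (K j : ℕ) (hj : 1 ≤ j)
    (hjk : j + 1 ≤ k) (h : KindL V H X k ε K j) : KindR V H Xᶜ k ε K (k - j) := by
  obtain ⟨h2, hM, a, uL, c, hc1, hc2, hu, hw, hS⟩ := h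
  refine ⟨by omega, ?_, ?_⟩
  · intro m hm hmw
    have hn := wt_not m
    have h3 := hM (m.map not) (by rw [List.length_map]; exact hm) (by omega)
    have h4 := sup_cs H X k ε K _ _ _ h3
    simp only [List.map_append, List.map_cons, List.map_nil, Bool.not_false, Bool.not_true,
      map_not_not] at h4
    exact h4
  · obtain ⟨hr, hc, hl, hwt⟩ := hBLR k (j + 1) hjk (by omega)
    obtain ⟨b, hb⟩ := hr a (k - 1)
    obtain ⟨b', hb'⟩ := hc b (k - 1)
    have hn := wt_not uL
    refine ⟨b', (c.map not).reverse, (uL.map not).reverse, ?_, ?_, ?_, ?_, ?_⟩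
    · rw [List.length_reverse, List.length_map]
      exact hc1
    · rw [List.length_reverse, List.length_map]
      exact hc2
    · rw [List.length_reverse, List.length_map]
      exact hu
    · have e : wt (uL.map not).reverse = wt (uL.map not) := by
        unfold wt
        rw [List.count_reverse]
      rw [e]
      omega
    · have h4 := srv V H Xᶜ k ε K _ _ _ (sup_cs H X k ε K _ _ _ hS)
      rw [← List.map_reverse, hb, hb'] at h4
      have e2 : k - (j + 1) = k - j - 1 := by omega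
      rw [e2] at h4
      exact h4

theorem per_mod (w : List Bool) (a m : ℕ) : per w (a % w.length) m = per w a m := by
  unfold per
  refine List.map_congr_left fun i _ => ?_
  rw [Nat.mod_add_mod]

/-- conjugation of a closed plan by letters -/
theorem conj (hPER : PerStmt) (hPWT : PwtStmt) (V : Type) [Fintype V] [DecidableEq V]
    (H : Finset (Finset V)) (X : Finset V) (k p : ℕ) (ε : ℝ) (K : ℕ) (w : List Bool) (b : ℕ)
    (N a q : ℕ) (hk : 1 ≤ k) (hw : w.length = k) (hp : wt w % 2 = p)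
    (h : Pl V H X k p ε K (per w b (k - 1)) (per w b (k - 1)) N a q) :
    Pl V H X k p ε K (per w 0 (k - 1)) (per w 0 (k - 1)) (N + k) (a + wt w) q := by
  obtain ⟨p1, p2, p3, p4, -, -, -⟩ := hPWT
  rw [← per_mod w b, hw] at h
  have hb : b % k < k := Nat.mod_lt _ (by omega)
  set c := b % k with hc
  have h1 := hPER V H X k p ε K w 0 c hk hw hp
  have h2 := hPER V H X k p ε K w c (k - c) hk hw hp
  have e1 : c + (k - c) = 0 + w.length := by omega
  rw [e1, p2] at h2
  rw [Nat.zero_add] at h1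
  have h3 := H3.tra V H X k p ε K _ _ _ _ _ _ _ _ _ h1 (H3.tra V H X k p ε K _ _ _ _ _ _ _ _ _ h h2)
  have e2 : c + (N + (k - c)) = N + k := by omega
  have e3 : 0 + (q + 0) = q := by omega
  have e4 : wt (per w (k - 1) c) + wt (per w (c + k - 1) (k - c)) = wt w := by
    have h5 := p4 w (k - 1) c (k - c)
    have h6 := p1 w
    have e5 : c + (k - c) = w.length := by omega
    have e6 : k - 1 + c = c + k - 1 := by omega
    rw [e5, e6] at h5
    have h7 := h6 (k - 1)
    rw [h5] at h7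
    rw [← h7]
    unfold wt
    rw [List.count_append]
  have e7 : 0 + k - 1 = k - 1 := by omega
  have e8 : wt (per w (0 + k - 1) c) + (a + wt (per w (c + k - 1) (k - c))) = a + wt w := by
    rw [e7]
    omega
  rw [e2, e3, e8] at h3
  exact h3

theorem loops_compl (hBLR : BlrStmt) (hPER : PerStmt) (hPWT : PwtStmt) (V : Type) [Fintype V]
    [DecidableEq V] (H : Finset (Finset V)) (X : Finset V) (k p : ℕ) (ε : ℝ) (K j t t' K₀ : ℕ)
    (hk : 1 ≤ k) (hj : 1 ≤ j) (hjk : j + 1 ≤ k) (hp : p < 2) (ht : t + t' = k) (htp : t % 2 = p)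
    (h : Loops V H Xᶜ k ((k + p) % 2) ε K (k - j) t' K₀) :
    Loops V H X k p ε K j t (K₀ + k * k + k) := by
  intro N a h1 h2
  have hN : K₀ + k * k + k ≤ N := by
    obtain ⟨i, rfl⟩ : ∃ i, j = i + 1 := ⟨j - 1, by omega⟩
    have e : i + 1 - 1 = i := by omega
    rw [e] at h1
    nlinarith [h1, h2]
  have hta : t * k + K₀ ≤ k * a := by
    have h4 : t * k ≤ k * k := Nat.mul_le_mul_right k (by omega)
    calc t * k + K₀ ≤ K₀ + k * k + k := by omega
      _ ≤ (j - 1) * N + (K₀ + k * k + k) := Nat.le_add_left _ _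
      _ ≤ k * a := h1
  have hta' : t ≤ a := by
    have h5 : k * t ≤ k * a := by
      rw [Nat.mul_comm k t]
      omega
    exact Nat.le_of_mul_le_mul_left h5 hk
  obtain ⟨N', rfl⟩ : ∃ N', N = N' + k := ⟨N - k, by omega⟩
  obtain ⟨a', rfl⟩ : ∃ a', a = a' + t := ⟨a - t, by omega⟩
  have haN : a' ≤ N' := by
    have h6 : (j + 1) * (N' + k) ≤ k * (N' + k) := Nat.mul_le_mul_right _ hjk
    have h7 : k * (a' + t) + (K₀ + k * k + k) ≤ k * (N' + k) := h2.trans h6
    have h8 : k * a' ≤ k * N' := by nlinarith [h7]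
    exact Nat.le_of_mul_le_mul_left h8 hk
  have hc1 : (k - j - 1) * N' + K₀ ≤ k * (N' - a') := by
    obtain ⟨i, rfl⟩ : ∃ i, k = j + 1 + i := ⟨k - (j + 1), by omega⟩
    obtain ⟨d, rfl⟩ : ∃ d, N' = a' + d := ⟨N' - a', by omega⟩
    have e1 : j + 1 + i - j - 1 = i := by omega
    have e2 : a' + d - a' = d := by omega
    rw [e1, e2]
    nlinarith [h2, Nat.zero_le (i * (j + 1)), Nat.zero_le (i * i)]
  have hc2 : k * (N' - a') + K₀ ≤ (k - j + 1) * N' := by
    obtain ⟨i, rfl⟩ : ∃ i, k = j + 1 + i := ⟨k - (j + 1), by omega⟩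
    obtain ⟨d, rfl⟩ : ∃ d, N' = a' + d := ⟨N' - a', by omega⟩
    obtain ⟨l, rfl⟩ : ∃ l, j = l + 1 := ⟨j - 1, by omega⟩
    have e1 : l + 1 + 1 + i - (l + 1) + 1 = i + 2 := by omega
    have e2 : a' + d - a' = d := by omega
    have e3 : l + 1 - 1 = l := by omega
    rw [e1, e2]
    rw [e3] at h1
    have h9 : (l + 1 + 1 + i) * t ≤ (l + 1 + 1 + i) * (l + 1 + 1 + i) :=
      Nat.mul_le_mul_left _ (by omega)
    nlinarith [h1, h9]
  obtain ⟨q, hq, hpl⟩ := h N' (N' - a') hc1 hc2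
  obtain ⟨-, hpl2⟩ := pco' H Xᶜ k ((k + p) % 2) ε K _ _ _ _ _ hk (Nat.mod_lt _ (by norm_num)) hpl
  rw [compl_compl] at hpl2
  obtain ⟨-, hc, -, -⟩ := hBLR k t' (by omega) hk
  obtain ⟨b, hb⟩ := hc 0 (k - 1)
  have e4 : k - t' = t := by omega
  have e5 : (k + (k + p) % 2) % 2 = p := by omega
  have e6 : N' - (N' - a') = a' := by omega
  rw [hb, e4, e5, e6] at hpl2
  obtain ⟨-, -, hl, hwt⟩ := hBLR k t (by omega) hk
  have h10 := conj hPER hPWT V H X k p ε K (blk k t) b N' a' q hk hl (by rw [hwt]; exact htp) hpl2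
  rw [hwt] at h10
  exact ⟨q, by omega, h10⟩

theorem lol (hBLR : BlrStmt) (hPER : PerStmt) (hPWT : PwtStmt) (hLOR : LorStmt) : LolStmt := by
  intro k hk
  obtain ⟨K₀, hK⟩ := hLOR k hk
  refine ⟨K₀ + k * k + k, ?_⟩
  intro V _ _ H X p ε K j hj hjk hp hjp hL
  have hR := kindL_to_kindR hBLR V H X k ε K j hj hjk hL
  obtain ⟨l1, l2⟩ := hK V H Xᶜ ((k + p) % 2) ε K (k - j) (by omega) (by omega) (by omega) hR
  constructor
  · exact loops_compl hBLR hPER hPWT V H X k p ε K j (j - 1) (k - j + 1) K₀ (by omega) hj hjk hp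
      (by omega) (by omega) l2
  · exact loops_compl hBLR hPER hPWT V H X k p ε K j (j + 1) (k - j - 1) K₀ (by omega) hj hjk hp
      (by omega) (by omega) l1

end Pool.Agent.KK.H42
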