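import Pool.Agent.KK.StmtsV

/-! MP_747bc0_co, squad KK, block BETA part 2, rows MKI TWO. -/

set_option autoImplicit false

namespace Pool.Agent.KK.H42

theorem rea_mono (V : Type) [Fintype V] [DecidableEq V] (H : Finset (Finset V)) (X D : Finset V)
    (k p : ℕ) (ε K : ℝ) (q q' : ℕ) (u v : List Bool) (N a : ℕ)
    (h : Rea H X k p ε K D q u v N a) (hq : q ≤ q') : Rea H X k p ε K D q' u v N a := by
  intro Z h1 h2
  obtain ⟨L, h3, h4, h5, h6⟩ := h Z h1 h2
  exact ⟨L, h3, h4, h5.trans hq, h6⟩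

theorem loops_real (hREL : RelStmt) (V : Type) [Fintype V] [DecidableEq V]
    (H : Finset (Finset V)) (X : Finset V) (k p : ℕ) (ε : ℝ) (K j t K₁ K₀ : ℕ) (K' : ℝ)
    (hk : 1 ≤ k) (hF : FW H X k p ε) (hK : K' + K₀ ≤ K) (hK1 : 2 * k * K₁ ≤ K₀)
    (h : Loops V H X k p ε K j t K₁) (N a : ℕ) (h1 : (j - 1) * N + K₁ ≤ k * a)
    (h2 : k * a + K₁ ≤ (j + 1) * N) :
    Rea H X k p ε K' ∅ K₀ (cx k (blk k t)) (cx k (blk k t)) N a := by
  obtain ⟨q, hq, hpl⟩ := h N a h1 h2
  have h3 : 2 * k * q ≤ K₀ := (Nat.mul_le_mul_left (2 * k) hq).trans hK1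
  have h4 : ((2 * k * q : ℕ) : ℝ) ≤ (K₀ : ℝ) := by exact_mod_cast h3
  push_cast at h4
  exact rea_mono V H X ∅ k p ε K' (2 * k * q) K₀ _ _ N a
    (hREL V H X k p ε K _ _ N a q K' hk hF hpl (by linarith)) h3

theorem mki (hLOR : LorStmt) (hLOP : LopStmt) (hLOL : LolStmt) (hREL : RelStmt) : MkiStmt := by
  intro k hk
  obtain ⟨A, hA⟩ := hLOR k hk
  obtain ⟨B, hB⟩ := hLOP k hk
  obtain ⟨C, hC⟩ := hLOL k hk
  refine ⟨2 * k * (A + B + C) + (A + B + C), ?_⟩
  intro V _ _ H X p j ε K K' hj hjk hp hjp hF hkind hK' hKK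
  have hmono : ∀ (t K₁ K₂ : ℕ), K₁ ≤ K₂ → Loops V H X k p ε K j t K₁ →
      Loops V H X k p ε K j t K₂ := by
    intro t K₁ K₂ h12 h N a h1 h2
    obtain ⟨q, hq, hpl⟩ := h N a (by omega) (by omega)
    exact ⟨q, hq.trans h12, hpl⟩
  obtain ⟨l1, l2⟩ : Loops V H X k p ε K j (j - 1) (A + B + C) ∧
      Loops V H X k p ε K j (j + 1) (A + B + C) := by
    rcases hkind with h | h | h
    · obtain ⟨g1, g2⟩ := hB V H X p ε K j hj hjk hjp h
      exact ⟨hmono _ _ _ (by omega) g1, hmono _ _ _ (by omega) g2⟩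
    · obtain ⟨g1, g2⟩ := hA V H X p ε K j hj hjk hjp h
      exact ⟨hmono _ _ _ (by omega) g1, hmono _ _ _ (by omega) g2⟩
    · obtain ⟨g1, g2⟩ := hC V H X p ε K j hj hjk hp hjp h
      exact ⟨hmono _ _ _ (by omega) g1, hmono _ _ _ (by omega) g2⟩
  generalize A + B + C = S at *
  constructor
  · intro r N a _ h1 h2
    exact loops_real hREL V H X k p ε K j (j - 1) S _ K' (by omega) hF hKK (by omega) l1 N a
      (by omega) (by omega)
  · intro M
    obtain ⟨i, rfl⟩ : ∃ i, j = i + 1 := ⟨j - 1, by omega⟩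
    have e0 : i + 1 - 1 = i := by omega
    refine ⟨k * (M + 2 * S), (i + 1 + 1) * (M + 2 * S) - (2 * M + S), ?_, ?_, ?_, ?_⟩
    · exact Nat.mul_mod_right k _
    · have : k * (M + 2 * S) = k * M + 2 * k * S := by ring
      omega
    · have h3 : 2 * M + S ≤ (i + 1 + 1) * (M + 2 * S) := by nlinarith [Nat.zero_le (i * (M + 2 * S))]
      have h4 : (((i + 1 + 1) * (M + 2 * S) - (2 * M + S) : ℕ) : ℤ) =
          ((i : ℤ) + 1 + 1) * (M + 2 * S) - (2 * M + S) := by
        rw [Nat.cast_sub h3]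
        push_cast
        ring
      rw [h4]
      push_cast
      have h5 : (k : ℤ) * (((i : ℤ) + 1 + 1) * (M + 2 * S) - (2 * M + S)) -
          ((i : ℤ) + 1 + 1) * (k * (M + 2 * S)) + 2 * k * M = -(k * S) := by ring
      rw [h5, abs_neg, abs_of_nonneg (by positivity)]
      nlinarith [mul_nonneg (Int.natCast_nonneg k) (Int.natCast_nonneg S), Int.natCast_nonneg S]
    · refine loops_real hREL V H X k p ε K (i + 1) (i + 1 + 1) S _ K' (by omega) hF hKK (by omega)
        l2 _ _ ?_ ?_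
      · rw [e0]
        have h3 : 2 * M + S ≤ (i + 1 + 1) * (M + 2 * S) := by
          nlinarith [Nat.zero_le (i * (M + 2 * S))]
        obtain ⟨d, hd⟩ : ∃ d, (i + 1 + 1) * (M + 2 * S) = d + (2 * M + S) :=
          ⟨(i + 1 + 1) * (M + 2 * S) - (2 * M + S), by omega⟩
        rw [hd, Nat.add_sub_cancel]
        have h5 : k * ((i + 1 + 1) * (M + 2 * S)) = k * d + k * (2 * M + S) := by rw [hd]; ring
        nlinarith [h5, Nat.zero_le (k * S), Nat.mul_le_mul_right S (show 1 ≤ k by omega)]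
      · have h3 : 2 * M + S ≤ (i + 1 + 1) * (M + 2 * S) := by
          nlinarith [Nat.zero_le (i * (M + 2 * S))]
        obtain ⟨d, hd⟩ : ∃ d, (i + 1 + 1) * (M + 2 * S) = d + (2 * M + S) :=
          ⟨(i + 1 + 1) * (M + 2 * S) - (2 * M + S), by omega⟩
        rw [hd, Nat.add_sub_cancel]
        have h5 : (i + 1 + 1) * (k * (M + 2 * S)) = k * d + k * (2 * M + S) := by
          calc (i + 1 + 1) * (k * (M + 2 * S)) = k * ((i + 1 + 1) * (M + 2 * S)) := by ring
            _ = _ := by rw [hd]; ring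
        rw [h5]
        nlinarith [Nat.zero_le (k * M), Nat.mul_le_mul_right S (show 1 ≤ k by omega)]

theorem two : TwoStmt := by
  intro k T K₀ R hk hkT
  refine ⟨1000 * (K₀ + R + k + 1), ?_⟩
  intro n x D hn hx hD
  subst hkT
  have hT : 2 ≤ T := by omega
  have hTr : (0 : ℝ) < (T : ℝ) := by
    have : 0 < T := by omega
    exact_mod_cast this
  -- integer forms
  have hx1 : 100 * (T : ℤ) * (2 * x - n) ≤ n ∧ -(n : ℤ) ≤ 100 * (T : ℤ) * (2 * x - n) := by
    obtain ⟨g1, g2⟩ := abs_le.1 hx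
    push_cast at g1 g2
    have g3 : (1 : ℝ) / (100 * (2 * (T : ℝ))) * (n : ℝ) * (200 * T) = n := by
      field_simp
      ring
    have g4 : (100 : ℝ) * T * (2 * x - n) ≤ n := by
      nlinarith [mul_le_mul_of_nonneg_right g2 (by positivity : (0 : ℝ) ≤ 200 * T)]
    have g5 : -(n : ℝ) ≤ (100 : ℝ) * T * (2 * x - n) := by
      nlinarith [mul_le_mul_of_nonneg_right g1 (by positivity : (0 : ℝ) ≤ 200 * T)]
    constructor
    · exact_mod_cast g4
    · exact_mod_cast g5
  have hD1 : 200 * (T * D) ≤ n := by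
    push_cast at hD
    have g3 : (1 : ℝ) / (100 * (2 * (T : ℝ))) * (n : ℝ) * (200 * T) = n := by
      field_simp
      ring
    have g4 : (200 : ℝ) * (T * D) ≤ n := by
      nlinarith [mul_le_mul_of_nonneg_right hD (by positivity : (0 : ℝ) ≤ 200 * T)]
    exact_mod_cast g4
  obtain ⟨hx2, hx3⟩ := hx1
  set E : ℤ := (T : ℤ) * (2 * x - n) with hE
  have hE1 : 100 * E ≤ n := by rw [hE]; linarith
  have hE2 : -(n : ℤ) ≤ 100 * E := by rw [hE]; linarith
  -- the number `M`
  set y : ℕ := (K₀ + R - E).toNat with hy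
  have hy1 : (K₀ : ℤ) + R - E ≤ y := Int.self_le_toNat _
  have hy2 : (y : ℤ) = K₀ + R - E ∨ (y : ℤ) = 0 := by
    rcases le_total 0 ((K₀ : ℤ) + R - E) with h | h
    · left
      exact Int.toNat_of_nonneg h
    · right
      rw [hy, Int.toNat_of_nonpos h]
      rfl
  refine ⟨y / (4 * T) + 1, ?_⟩
  set M : ℕ := y / (4 * T) + 1 with hM
  have hM1 : y ≤ 4 * (T * M) := by
    have h1 := Nat.div_add_mod y (4 * T)
    have h2 := Nat.mod_lt y (show 0 < 4 * T by omega)
    have h3 : 4 * (T * M) = 4 * T * (y / (4 * T)) + 4 * T := by rw [hM]; ring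
    omega
  have hM2 : 4 * (T * M) ≤ y + 4 * T := by
    have h1 := Nat.div_add_mod y (4 * T)
    have h3 : 4 * (T * M) = 4 * T * (y / (4 * T)) + 4 * T := by rw [hM]; ring
    omega
  intro N' a' hN' ha'
  push_cast at ha'
  obtain ⟨b1, b2⟩ := abs_le.1 ha'
  have hkM : 2 * T * M = 2 * (T * M) := by ring
  rw [hkM] at hN'
  -- bound of `a'`
  have ha1 : a' ≤ T * M + R := by
    have h1 : 2 * (T : ℤ) * a' ≤ R + T * N' := by
      nlinarith [mul_nonneg (Int.natCast_nonneg T) (Int.natCast_nonneg M)]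
    have h2 : 2 * T * a' ≤ R + T * N' := by exact_mod_cast h1
    have h3 : T * N' ≤ T * (2 * (T * M) + R) := Nat.mul_le_mul_left T hN'
    by_contra hcon
    have h4 : T * M + R + 1 ≤ a' := by omega
    have h5 : 2 * T * (T * M + R + 1) ≤ 2 * T * a' := Nat.mul_le_mul_left (2 * T) h4
    nlinarith [Nat.mul_le_mul_right R (show 1 ≤ T by omega)]
  have hyb : (y : ℤ) * 100 ≤ 100 * K₀ + 100 * R + n := by
    rcases hy2 with h | h
    · rw [h]
      linarith
    · rw [h]
      positivity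
  have hyb' : y * 100 ≤ 100 * K₀ + 100 * R + n := by exact_mod_cast hyb
  set P := T * M with hP
  set Q := T * D with hQ
  have e1 : 4 * (2 * T) * D = 8 * Q := by rw [hQ]; ring
  have e2 : 4 * T * D = 4 * Q := by rw [hQ]; ring
  have hNN : N' + 8 * Q ≤ n := by omega
  have hxn : 199 * n ≤ 400 * x := by
    have h1 : -(n : ℤ) ≤ 200 * (2 * x - n) := by
      rcases le_total 0 (2 * (x : ℤ) - n) with h | h
      · have : 0 ≤ 200 * (2 * (x : ℤ) - n) := by positivity
        have h0 : -(n : ℤ) ≤ 0 := by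
          have := Int.natCast_nonneg n
          linarith
        linarith
      · have h2 : (100 : ℤ) * T * (2 * x - n) ≤ 200 * (2 * x - n) := by
          have h3 : (200 : ℤ) ≤ 100 * T := by
            have : (2 : ℤ) ≤ T := by exact_mod_cast hT
            linarith
          exact mul_le_mul_of_nonpos_right h3 h
        linarith
    have h2 : (199 : ℤ) * n ≤ 400 * x := by
      linarith
    exact_mod_cast h2
  have hax : a' + 4 * Q ≤ x := by omega
  obtain ⟨U, hU⟩ : ∃ U, U + N' + 8 * Q = n := ⟨n - N' - 8 * Q, by omega⟩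
  obtain ⟨W, hW⟩ : ∃ W, W + a' + 4 * Q = x := ⟨x - a' - 4 * Q, by omega⟩
  have c1 : (U : ℤ) = (n : ℤ) - 8 * Q - N' := by omega
  have c2 : (W : ℤ) = (x : ℤ) - 4 * Q - a' := by omega
  have h6 : (P : ℤ) = T * M := by rw [hP]; push_cast; ring
  have h8 : 2 * (T : ℤ) * W - T * U = E - (2 * T * a' - T * N') := by
    rw [hE, c1, c2]
    ring
  refine ⟨U, W, by omega, by omega, ?_, ?_⟩
  · have h1 : (T : ℤ) * U + K₀ ≤ 2 * T * W := by
      have h2 : (y : ℤ) ≤ 4 * P := by exact_mod_cast hM1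
      have h3 : 2 * (2 * (T : ℤ)) * M = 4 * P := by rw [h6]; ring
      rw [h3] at b1 b2
      linarith
    exact_mod_cast h1
  · have h1 : 2 * (T : ℤ) * W + K₀ ≤ (T + 2) * U := by
      have h2 : 4 * (P : ℤ) ≤ (y : ℤ) + 4 * T := by exact_mod_cast hM2
      have h3 : (N' : ℤ) ≤ 2 * P + R := by exact_mod_cast hN'
      have h4 : 200 * (Q : ℤ) ≤ n := by exact_mod_cast hD1
      have h7 : (1000 : ℤ) * (K₀ + R + 2 * T + 1) ≤ n := by exact_mod_cast hn
      have h9 : 2 * (2 * (T : ℤ)) * M = 4 * P := by rw [h6]; ring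
      rw [h9] at b1 b2
      have h11 : ((T : ℤ) + 2) * U = T * U + 2 * U := by ring
      rw [h11]
      have g0 := Int.natCast_nonneg n
      have g1 := Int.natCast_nonneg K₀
      have g2 := Int.natCast_nonneg R
      have h12 : 100 * (E + y) ≤ 100 * K₀ + 100 * R + n := by
        rcases hy2 with h | h
        · rw [h]
          linarith
        · rw [h]
          linarith
      linarith
    exact_mod_cast h1

end Pool.Agent.KK.H42
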