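import Pool.Agent.KK.StmtsV

/-! MP_747bc0_co, squad KK, block BETA part 2, row NPS. -/

set_option autoImplicit false

namespace Pool.Agent.KK.H42

section

variable {V : Type} [Fintype V] [DecidableEq V]

theorem xc_snoc (A : Finset V) {m : ℕ} (f : Fin m → V) (v : V) :
    xc A (Fin.snoc (α := fun _ => V) f v) = xc A f + if v ∈ A then 1 else 0 := by
  unfold xc
  rw [Finset.card_filter, Finset.card_filter, Fin.sum_univ_castSucc]
  simp only [Fin.snoc_castSucc, Fin.snoc_last]

theorem image_snoc {m : ℕ} (f : Fin m → V) (v : V) :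
    Finset.univ.image (Fin.snoc (α := fun _ => V) f v) = insert v (Finset.univ.image f) := by
  ext x
  simp only [Finset.mem_image, Finset.mem_univ, true_and, Finset.mem_insert]
  constructor
  · rintro ⟨i, rfl⟩
    refine Fin.lastCases ?_ (fun j => ?_) i
    · left
      rw [Fin.snoc_last]
    · right
      exact ⟨j, by rw [Fin.snoc_castSucc]⟩
  · rintro (rfl | ⟨j, rfl⟩)
    · exact ⟨Fin.last m, by rw [Fin.snoc_last]⟩
    · exact ⟨j.castSucc, by rw [Fin.snoc_castSucc]⟩

theorem inj_snoc {m : ℕ} (f : Fin m → V) (v : V) (hf : Function.Injective f)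
    (hv : v ∉ Finset.univ.image f) : Function.Injective (Fin.snoc (α := fun _ => V) f v) := by
  intro i j
  refine Fin.lastCases ?_ (fun i' => ?_) i
  · refine Fin.lastCases ?_ (fun j' => ?_) j
    · intro _
      rfl
    · intro h
      rw [Fin.snoc_last, Fin.snoc_castSucc] at h
      exact absurd (Finset.mem_image.2 ⟨j', Finset.mem_univ _, h.symm⟩) hv
  · refine Fin.lastCases ?_ (fun j' => ?_) j
    · intro h
      rw [Fin.snoc_last, Fin.snoc_castSucc] at h
      exact absurd (Finset.mem_image.2 ⟨i', Finset.mem_univ _, h⟩) hv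
    · intro h
      rw [Fin.snoc_castSucc, Fin.snoc_castSucc] at h
      rw [hf h]

/-- next vertices -/
def nx (H : Finset (Finset V)) (A B : Finset V) (k t m : ℕ) (f : Fin m → V) : Finset V :=
  if m + 1 = k then nb H (Finset.univ.image f) ∩ B
  else (if m < t then A else Aᶜ) \ Finset.univ.image f

/-- greedy family of tuples -/
def fm (H : Finset (Finset V)) (A B : Finset V) (k t : ℕ) : (m : ℕ) → Finset (Fin m → V)
  | 0 => Finset.univ
  | m + 1 => (fm H A B k t m).biUnion fun f => (nx H A B k t m f).image fun v =>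
      Fin.snoc (α := fun _ => V) f v

theorem fm_card (H : Finset (Finset V)) (A B : Finset V) (k t m : ℕ) (c : ℝ)
    (h : ∀ f ∈ fm H A B k t m, c ≤ ((nx H A B k t m f).card : ℝ)) :
    ((fm H A B k t m).card : ℝ) * c ≤ ((fm H A B k t (m + 1)).card : ℝ) := by
  have h2 : (fm H A B k t (m + 1)).card = ∑ f ∈ fm H A B k t m, (nx H A B k t m f).card := by
    change ((fm H A B k t m).biUnion fun f => (nx H A B k t m f).image fun v =>
      Fin.snoc (α := fun _ => V) f v).card = _
    rw [Finset.card_biUnion]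
    · refine Finset.sum_congr rfl fun f _ => ?_
      rw [Finset.card_image_of_injective]
      intro a b hab
      have h3 := congrFun hab (Fin.last m)
      simp only [Fin.snoc_last] at h3
      exact h3
    · intro f _ g _ hfg
      rw [Function.onFun, Finset.disjoint_left]
      intro x hx hx'
      obtain ⟨a, -, ha⟩ := Finset.mem_image.1 hx
      obtain ⟨b, -, hb⟩ := Finset.mem_image.1 hx'
      apply hfg
      funext i
      have h3 := congrFun (ha.trans hb.symm) i.castSucc
      simp only [Fin.snoc_castSucc] at h3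
      exact h3
  rw [h2, Nat.cast_sum]
  calc ((fm H A B k t m).card : ℝ) * c = ∑ f ∈ fm H A B k t m, c := by
        rw [Finset.sum_const, nsmul_eq_mul]
    _ ≤ ∑ f ∈ fm H A B k t m, ((nx H A B k t m f).card : ℝ) :=
        Finset.sum_le_sum fun f hf => h f hf

theorem fm_inv (H : Finset (Finset V)) (A B : Finset V) (k t m : ℕ) (hm : m + 1 ≤ k) :
    ∀ f ∈ fm H A B k t m, Function.Injective f ∧ xc A f = min m t := by
  induction m with
  | zero =>
    intro f _
    refine ⟨fun i => i.elim0, ?_⟩
    unfold xc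
    simp
  | succ m ih =>
    intro f hf
    obtain ⟨g, hg, hf2⟩ := Finset.mem_biUnion.1 hf
    obtain ⟨v, hv, rfl⟩ := Finset.mem_image.1 hf2
    obtain ⟨h1, h2⟩ := ih (by omega) g hg
    unfold nx at hv
    rw [if_neg (by omega : ¬ m + 1 = k)] at hv
    obtain ⟨hv1, hv2⟩ := Finset.mem_sdiff.1 hv
    refine ⟨inj_snoc g v h1 hv2, ?_⟩
    rw [xc_snoc, h2]
    by_cases hmt : m < t
    · rw [if_pos hmt] at hv1
      rw [if_pos hv1]
      omega
    · rw [if_neg hmt] at hv1
      rw [if_neg (Finset.mem_compl.1 hv1)]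
      omega

theorem core (H : Finset (Finset V)) (A B : Finset V) (k t p : ℕ) (η : ℝ) (hk : 3 ≤ k)
    (ht : t ≤ 1) (hn : 180 * k ≤ Fintype.card V) (hD : Dirac H k)
    (hN : NearPar H k A p η)
    (hB : (B = A ∧ (t + 1) % 2 ≠ p % 2) ∨ (B = Aᶜ ∧ t % 2 ≠ p % 2)) :
    (Fintype.card V : ℝ) / 2 - (Bᶜ).card ≤ 20 ^ k * η * (Fintype.card V : ℝ) := by
  obtain ⟨hA1, hA2, hA3⟩ := hN
  have hn0 : (0 : ℝ) < (Fintype.card V : ℝ) := by
    have : 0 < Fintype.card V := by omega
    exact_mod_cast this
  have hn1 : 180 * (k : ℝ) ≤ (Fintype.card V : ℝ) := by exact_mod_cast hn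
  have hη : 0 ≤ η := by
    by_contra hcon
    have h1 := hA3
    have h2 : η * (Fintype.card V : ℝ) ^ k < 0 :=
      mul_neg_of_neg_of_pos (not_le.1 hcon) (by positivity)
    have h3 : (0 : ℝ) ≤ ({f : Fin k → V | Function.Injective f ∧
      ¬ (Finset.univ.image f ∈ H ↔ xc A f % 2 = p % 2)}.ncard : ℝ) := Nat.cast_nonneg _
    linarith
  by_cases hc : (Fintype.card V : ℝ) / 2 - (Bᶜ).card ≤ 0
  · have : 0 ≤ 20 ^ k * η * (Fintype.card V : ℝ) := by positivity
    linarith
  have hc' := not_le.1 hc
  -- growth of the family up to `k - 1`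
  have hgrow : ∀ m, m + 1 ≤ k → ((Fintype.card V : ℝ) / 20) ^ m ≤ ((fm H A B k t m).card : ℝ) := by
    intro m
    induction m with
    | zero =>
      intro _
      have : (fm H A B k t 0).card = 1 := by
        change (Finset.univ : Finset (Fin 0 → V)).card = 1
        simp
      rw [this]
      simp
    | succ m ih =>
      intro hm
      have h1 := ih (by omega)
      refine le_trans ?_ (fm_card H A B k t m ((Fintype.card V : ℝ) / 20) ?_)
      · rw [pow_succ]
        exact mul_le_mul_of_nonneg_right h1 (by positivity)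
      · intro f _
        unfold nx
        rw [if_neg (by omega : ¬ m + 1 = k)]
        have h2 : (if m < t then A else Aᶜ).card ≤
            ((if m < t then A else Aᶜ) \ Finset.univ.image f).card + k := by
          have h3 := Finset.le_card_sdiff (Finset.univ.image f) (if m < t then A else Aᶜ)
          have h4 : (Finset.univ.image f).card ≤ m := by
            have := Finset.card_image_le (s := (Finset.univ : Finset (Fin m))) (f := f)
            rwa [Finset.card_univ, Fintype.card_fin] at this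
          omega
        have h5 : (((if m < t then A else Aᶜ).card : ℕ) : ℝ) ≤
            (((if m < t then A else Aᶜ) \ Finset.univ.image f).card : ℝ) + k := by
          exact_mod_cast h2
        have h6 : (Fintype.card V : ℝ) / 18 ≤ (((if m < t then A else Aᶜ).card : ℕ) : ℝ) := by
          by_cases hmt : m < t
          · rw [if_pos hmt]
            exact hA1
          · rw [if_neg hmt]
            exact hA2
        linarith
  obtain ⟨m, rfl⟩ : ∃ m, k = m + 1 := ⟨k - 1, by omega⟩
  have h1 := hgrow m le_rfl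
  have h2 := fm_card H A B (m + 1) t m ((Fintype.card V : ℝ) / 2 - (Bᶜ).card) (by
    intro f hf
    obtain ⟨hf1, -⟩ := fm_inv H A B (m + 1) t m le_rfl f hf
    unfold nx
    rw [if_pos rfl]
    have h3 : (Finset.univ.image f).card = m + 1 - 1 := by
      rw [Finset.card_image_of_injective _ hf1, Finset.card_univ, Fintype.card_fin]
      rfl
    have h4 := hD _ h3
    have h5 : (nb H (Finset.univ.image f)).card ≤
        (nb H (Finset.univ.image f) ∩ B).card + (Bᶜ).card := by
      have h6 := Finset.card_sdiff_add_card_inter (nb H (Finset.univ.image f)) B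
      have h7 : (nb H (Finset.univ.image f) \ B).card ≤ (Bᶜ).card := by
        apply Finset.card_le_card
        intro x hx
        exact Finset.mem_compl.2 (Finset.mem_sdiff.1 hx).2
      omega
    have h6 : (Fintype.card V : ℝ) ≤ 2 * ((nb H (Finset.univ.image f)).card : ℝ) := by
      exact_mod_cast h4
    have h7 : ((nb H (Finset.univ.image f)).card : ℝ) ≤
        ((nb H (Finset.univ.image f) ∩ B).card : ℝ) + ((Bᶜ).card : ℝ) := by exact_mod_cast h5
    linarith)
  have h3 : (fm H A B (m + 1) t (m + 1)).card ≤ {f : Fin (m + 1) → V | Function.Injective f ∧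
      ¬ (Finset.univ.image f ∈ H ↔ xc A f % 2 = p % 2)}.ncard := by
    rw [← Set.ncard_coe_finset]
    refine Set.ncard_le_ncard ?_ (Set.toFinite _)
    intro f hf
    have hf' : f ∈ fm H A B (m + 1) t (m + 1) := hf
    obtain ⟨g, hg, hf2⟩ := Finset.mem_biUnion.1 hf'
    obtain ⟨v, hv, rfl⟩ := Finset.mem_image.1 hf2
    obtain ⟨hg1, hg2⟩ := fm_inv H A B (m + 1) t m le_rfl g hg
    unfold nx at hv
    rw [if_pos rfl] at hv
    obtain ⟨hv1, hv2⟩ := Finset.mem_inter.1 hv
    obtain ⟨-, hv3, hv4⟩ := Finset.mem_filter.1 hv1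
    refine ⟨inj_snoc g v hg1 hv3, ?_⟩
    rw [image_snoc, xc_snoc, hg2, iff_true_left hv4]
    rcases hB with ⟨rfl, hp⟩ | ⟨rfl, hp⟩
    · rw [if_pos hv2]
      omega
    · rw [if_neg (Finset.mem_compl.1 hv2)]
      omega
  have h4 : ((fm H A B (m + 1) t (m + 1)).card : ℝ) ≤ η * (Fintype.card V : ℝ) ^ (m + 1) := by
    refine le_trans ?_ hA3
    exact_mod_cast h3
  have h5 : ((Fintype.card V : ℝ) / 20) ^ m * ((Fintype.card V : ℝ) / 2 - (Bᶜ).card) ≤
      η * (Fintype.card V : ℝ) ^ (m + 1) :=
    (mul_le_mul_of_nonneg_right h1 hc'.le).trans (h2.trans h4)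
  have h6 : ((Fintype.card V : ℝ) / 20) ^ m * ((Fintype.card V : ℝ) / 2 - (Bᶜ).card) ≤
      ((Fintype.card V : ℝ) / 20) ^ m * (20 ^ m * η * (Fintype.card V : ℝ)) := by
    refine h5.trans (le_of_eq ?_)
    rw [div_pow, pow_succ]
    field_simp
  have h7 : (Fintype.card V : ℝ) / 2 - (Bᶜ).card ≤ 20 ^ m * η * (Fintype.card V : ℝ) :=
    le_of_mul_le_mul_left h6 (by positivity)
  refine h7.trans ?_
  have h8 : (20 : ℝ) ^ m ≤ 20 ^ (m + 1) := pow_le_pow_right₀ (by norm_num) (by omega)
  gcongr

end

theorem nps : NpsStmt := by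
  intro k hk
  refine ⟨180 * k, ?_⟩
  intro V _ _ H A p η hn _ hD hN
  have h1 := core H A A k (p % 2) p η hk (by omega) hn hD hN (Or.inl ⟨rfl, by omega⟩)
  have h2 := core H A Aᶜ k (1 - p % 2) p η hk (by omega) hn hD hN (Or.inr ⟨rfl, by omega⟩)
  rw [compl_compl] at h2
  have h3 : (Aᶜ).card + A.card = Fintype.card V := by
    have h3 := Finset.card_add_card_compl A
    omega
  have h4 : ((Aᶜ).card : ℝ) + (A.card : ℝ) = (Fintype.card V : ℝ) := by exact_mod_cast h3
  rw [abs_le]
  constructor
  · linarith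
  · linarith

end Pool.Agent.KK.H42
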