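import Pool.Agent.KK.StmtsV
import Pool.Agent.Helper60_KKB.PUP

/-! MP_747bc0_co, squad KK, block BETA part 2, row PUT. -/

set_option autoImplicit false

namespace Pool.Agent.KK.H42

open H60W

/-- decomposition of the words before and after the connector -/
theorem core2 (k : ℕ) (b : Bool) (U U' : List Bool) (c₁ c₂ : ℕ) (hU : U.length = k)
    (hU' : U'.length = k) (h1 : c₁ < k) (h2 : c₂ < k) (h12 : c₁ ≠ c₂)
    (hb1 : U.getD c₁ false = b) (hb2 : U.getD c₂ false = b)
    (hUU : ∀ i < k, U'.getD i false = if i = c₁ ∨ i = c₂ then !b else U.getD i false) :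
    ∃ d, 1 ≤ d ∧ d < k ∧ (c₁ + d) % k = c₂ ∧
      ∃ m₁ m₂ : List Bool, m₁.length = d - 1 ∧ m₂.length = k - 1 - d ∧
      (m₁ ++ b :: m₂ ++ [b]).tail = per U (c₁ + 2) (k - 1) ∧
      ((!b) :: m₁ ++ (!b) :: m₂).dropLast = per U' c₁ (k - 1) ∧
      wt U = wt m₁ + wt m₂ + 2 * wt [b] ∧ wt U' = wt m₁ + wt m₂ + 2 * wt [!b] := by
  obtain ⟨d, hd1, hdk, hd⟩ : ∃ d, 1 ≤ d ∧ d < k ∧ (c₁ + d) % k = c₂ := by
    rcases lt_or_gt_of_ne h12 with h | h
    · exact ⟨c₂ - c₁, by omega, by omega, by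
        rw [show c₁ + (c₂ - c₁) = c₂ by omega]; exact Nat.mod_eq_of_lt h2⟩
    · refine ⟨c₂ + k - c₁, by omega, by omega, ?_⟩
      rw [show c₁ + (c₂ + k - c₁) = c₂ + k by omega, Nat.add_mod_right]
      exact Nat.mod_eq_of_lt h2
  have hc1 : (c₁ % k) = c₁ := Nat.mod_eq_of_lt h1
  have hne : ∀ i, 1 ≤ i → i < k → i ≠ d → (c₁ + i) % k ≠ c₁ ∧ (c₁ + i) % k ≠ c₂ := by
    intro i hi1 hik hid
    constructor
    · intro h
      have h3 : (c₁ + i) % k = (c₁ + 0) % k := by rw [h, Nat.add_zero, hc1]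
      have h4 : i % k = 0 % k := Nat.ModEq.add_left_cancel' c₁ h3
      rw [Nat.mod_eq_of_lt hik, Nat.zero_mod] at h4
      omega
    · intro h
      have h3 : (c₁ + i) % k = (c₁ + d) % k := by rw [h, hd]
      have h4 : i % k = d % k := Nat.ModEq.add_left_cancel' c₁ h3
      rw [Nat.mod_eq_of_lt hik, Nat.mod_eq_of_lt hdk] at h4
      exact hid h4
  have hsame : ∀ i, 1 ≤ i → i < k → i ≠ d →
      U'.getD ((c₁ + i) % k) false = U.getD ((c₁ + i) % k) false := by
    intro i hi1 hik hid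
    obtain ⟨h3, h4⟩ := hne i hi1 hik hid
    rw [hUU _ (Nat.mod_lt _ (by omega)), if_neg]
    rintro (h | h)
    · exact h3 h
    · exact h4 h
  have e1 : per U' (c₁ + 1) (d - 1) = per U (c₁ + 1) (d - 1) := by
    apply per_congr
    intro i hi
    rw [hU, hU', show c₁ + 1 + i = c₁ + (1 + i) by omega]
    exact hsame (1 + i) (by omega) (by omega) (by omega)
  have e2 : per U' (c₁ + d + 1) (k - 1 - d) = per U (c₁ + d + 1) (k - 1 - d) := by
    apply per_congr
    intro i hi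
    rw [hU, hU', show c₁ + d + 1 + i = c₁ + (d + 1 + i) by omega]
    exact hsame (d + 1 + i) (by omega) (by omega) (by omega)
  have f1 : per U (c₁ + 1) k = per U (c₁ + 1) (d - 1) ++ b :: per U (c₁ + d + 1) (k - 1 - d) ++
      [b] := by
    have hk : k = (d - 1) + (1 + ((k - 1 - d) + 1)) := by omega
    have g1 : per U (c₁ + 1) k = per U (c₁ + 1) ((d - 1) + (1 + ((k - 1 - d) + 1))) := by
      rw [← hk]
    have p1 : per U (c₁ + d) 1 = [b] := by
      rw [per_one, hU, hd, hb2]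
    have p3 : per U (c₁ + k) 1 = [b] := by
      rw [per_one, hU, Nat.add_mod_right, hc1, hb1]
    rw [g1, per_add, show c₁ + 1 + (d - 1) = c₁ + d by omega, per_add, p1, per_add,
      show c₁ + d + 1 + (k - 1 - d) = c₁ + k by omega, p3]
    simp
  have f2 : per U' c₁ k = (!b) :: per U (c₁ + 1) (d - 1) ++ (!b) ::
      per U (c₁ + d + 1) (k - 1 - d) := by
    have hk : k = 1 + ((d - 1) + (1 + (k - 1 - d))) := by omega
    have g1 : per U' c₁ k = per U' c₁ (1 + ((d - 1) + (1 + (k - 1 - d)))) := by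
      rw [← hk]
    have p1 : per U' c₁ 1 = [!b] := by
      rw [per_one, hU', hc1, hUU _ h1, if_pos (Or.inl rfl)]
    have p3 : per U' (c₁ + 1 + (d - 1)) 1 = [!b] := by
      rw [per_one, hU', show c₁ + 1 + (d - 1) = c₁ + d by omega, hd, hUU _ h2,
        if_pos (Or.inr rfl)]
    rw [g1, per_add, p1, per_add, e1, per_add, p3,
      show c₁ + 1 + (d - 1) + 1 = c₁ + d + 1 by omega, e2]
    simp
  refine ⟨d, hd1, hdk, hd, per U (c₁ + 1) (d - 1), per U (c₁ + d + 1) (k - 1 - d),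
    per_length .., per_length .., ?_, ?_, ?_, ?_⟩
  · rw [← f1]
    have hk : k = (k - 1) + 1 := by omega
    have g1 : per U (c₁ + 1) k = per U (c₁ + 1) ((k - 1) + 1) := by rw [← hk]
    rw [g1, per_succ]
    rfl
  · rw [← f2]
    have hk : k = (k - 1) + 1 := by omega
    have g1 : per U' c₁ k = per U' c₁ ((k - 1) + 1) := by rw [← hk]
    rw [g1, per_add, per_one, List.dropLast_concat]
  · have h3 := wt_full U (c₁ + 1)
    rw [hU, f1, wt_append, wt_append, wt_cons] at h3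
    omega
  · have h3 := wt_full U' c₁
    rw [hU', f2, wt_append, wt_cons, wt_cons (!b) (per U (c₁ + d + 1) (k - 1 - d))] at h3
    omega

/-- a free stretch -/
theorem rea_free (hREL : RelStmt) (hPER : PerStmt) (V : Type) [Fintype V] [DecidableEq V]
    (H : Finset (Finset V)) (X : Finset V) (k p : ℕ) (ε κ : ℝ) (w : List Bool) (a m : ℕ)
    (hk : 1 ≤ k) (hF : FW H X k p ε) (hw : w.length = k) (hp : wt w % 2 = p) :
    Rea H X k p ε κ ∅ 0 (per w a (k - 1)) (per w (a + m) (k - 1)) m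
      (wt (per w (a + k - 1) m)) := by
  obtain ⟨K, hK⟩ := exists_nat_ge κ
  have h1 := hREL V H X k p ε K _ _ _ _ _ κ hk hF (hPER V H X k p ε K w a m hk hw hp)
    (by push_cast; linarith)
  rw [Nat.mul_zero] at h1
  exact h1

/-- one connector, between two words, at the times of the docstring -/
theorem put_gen (hREL : RelStmt) (hCMO : CmoStmt) (hTKR : TkrStmt) (hPER : PerStmt)
    (V : Type) [Fintype V] [DecidableEq V] (H : Finset (Finset V)) (X : Finset V) (k p : ℕ)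
    (ε K K' : ℝ) (b : Bool) (U U' : List Bool) (c₁ c₂ s : ℕ) (z : V) (hk : 2 ≤ k)
    (hF : FW H X k p ε) (hU : U.length = k) (hU' : U'.length = k) (h1 : c₁ < k) (h2 : c₂ < k)
    (h12 : c₁ ≠ c₂) (hb1 : U.getD c₁ false = b) (hb2 : U.getD c₂ false = b)
    (hUU : ∀ i < k, U'.getD i false = if i = c₁ ∨ i = c₂ then !b else U.getD i false)
    (hs : wt U = s + 2 * wt [b] ∨ wt U' = s + 2 * wt [!b])
    (hp : wt U % 2 = p ∨ wt U' % 2 = p) (hK : K' + 2 * k ≤ K)
    (hsup : ∀ m₁ m₂ : List Bool, m₁.length + m₂.length + 2 = k → wt m₁ + wt m₂ = s →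
      SupT H X k ε K z (m₁ ++ b :: m₂ ++ [b]).tail
        (m₁ ++ b :: m₂ ++ decide (z ∈ X) :: (m₁ ++ (!b) :: m₂))
        ((!b) :: m₁ ++ (!b) :: m₂).dropLast) :
    wt U = s + 2 * wt [b] ∧ wt U' = s + 2 * wt [!b] ∧
      Rea H X k p ε K' {z} (2 * k) (cx k U) (cx k U') (4 * k)
        (wt (per U (k - 1) (c₁ + 2)) + (2 * s + 1 + wt [decide (z ∈ X)]) +
          wt (per U' c₁ (k - 1)) + wt (per U' (c₁ + k - 1) (k - c₁))) := by
  obtain ⟨d, hd1, hdk, hd, m₁, m₂, l1, l2, ht, hdl, hwU, hwU'⟩ :=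
    core2 k b U U' c₁ c₂ hU hU' h1 h2 h12 hb1 hb2 hUU
  have hs' : wt m₁ + wt m₂ = s := by rcases hs with h | h <;> omega
  have hb : wt [b] + wt [!b] = 1 := by cases b <;> rfl
  have hpU : wt U % 2 = p := by rcases hp with h | h <;> omega
  have hpU' : wt U' % 2 = p := by rcases hp with h | h <;> omega
  refine ⟨by omega, by omega, ?_⟩
  have hS := hsup m₁ m₂ (by omega) hs'
  rw [ht, hdl] at hS
  have hlc : (m₁ ++ b :: m₂ ++ decide (z ∈ X) :: (m₁ ++ (!b) :: m₂)).length = 2 * k - 1 := by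
    simp only [List.length_append, List.length_cons, l1, l2]
    omega
  have hwc : wt (m₁ ++ b :: m₂ ++ decide (z ∈ X) :: (m₁ ++ (!b) :: m₂)) =
      2 * s + 1 + wt [decide (z ∈ X)] := by
    rw [wt_append, wt_append, wt_cons, wt_cons (decide (z ∈ X)), wt_append, wt_cons (!b)]
    omega
  have P2 := hTKR V H X k p ε K z _ _ _ (by omega) (per_length ..) (per_length ..)
    (by rw [hlc]; omega) hS
  rw [hlc, hwc] at P2
  have P1 := rea_free hREL hPER V H X k p ε K U 0 (c₁ + 2) (by omega) hF hU hpU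
  rw [Nat.zero_add, Nat.zero_add] at P1
  have P12 := hCMO.2.1 V H X ∅ {z} k p ε K (K - 1) 0 (2 * k - 1) _ _ _ _ _ _ _ (by omega) P1 P2
    (Finset.disjoint_empty_left _) (by
      rw [Finset.card_singleton]
      push_cast
      linarith)
  have P3 := rea_free hREL hPER V H X k p ε (K - 1) U' c₁ (k - c₁) (by omega) hF hU' hpU'
  have e1 : per U' (c₁ + (k - c₁)) (k - 1) = per U' 0 (k - 1) := by
    have := per_period U' 0 (k - 1)
    rw [hU', Nat.zero_add] at this
    rw [show c₁ + (k - c₁) = k by omega]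
    exact this
  rw [e1] at P3
  have P := hCMO.2.1 V H X _ ∅ k p ε (K - 1) K' _ 0 _ _ _ _ _ _ _ (by omega) P12 P3
    (Finset.disjoint_empty_right _) (by
      rw [Finset.card_empty]
      have : ((0 + (2 * k - 1) : ℕ) : ℝ) = 2 * (k : ℝ) - 1 := by
        rw [Nat.zero_add, Nat.cast_sub (by omega)]
        push_cast
        ring
      rw [this]
      push_cast
      linarith)
  rw [Finset.empty_union, Finset.union_empty] at P
  have hN : c₁ + 2 + (2 * k - 1 + (k - 1)) + (k - c₁) = 4 * k := by omega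
  rw [hN] at P
  have hA : wt (per U (k - 1) (c₁ + 2)) + (2 * s + 1 + wt [decide (z ∈ X)] +
      wt (per U' c₁ (k - 1))) + wt (per U' (c₁ + k - 1) (k - c₁)) =
      wt (per U (k - 1) (c₁ + 2)) + (2 * s + 1 + wt [decide (z ∈ X)]) +
          wt (per U' c₁ (k - 1)) + wt (per U' (c₁ + k - 1) (k - c₁)) := by omega
  rw [hA] at P
  intro Z h3 h4
  obtain ⟨L, g1, g2, g3, g4⟩ := P Z h3 h4
  exact ⟨L, g1, g2, by omega, g4⟩

/-- the count for a flip upwards -/
theorem count_up2 (k : ℕ) (U U' : List Bool) (c₁ c₂ s : ℕ) (hU : U.length = k)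
    (hU' : U'.length = k) (h1 : c₁ < k) (h2 : c₂ < k) (h12 : c₁ ≠ c₂)
    (hb1 : U.getD c₁ false = false) (hb2 : U.getD c₂ false = false)
    (hUU : ∀ i < k, U'.getD i false = if i = c₁ ∨ i = c₂ then true else U.getD i false)
    (hs : wt U = s) (hs' : wt U' = s + 2) :
    wt (per U (k - 1) (c₁ + 2)) + (2 * s + 1) + wt (per U' c₁ (k - 1)) +
      wt (per U' (c₁ + k - 1) (k - c₁)) =
    4 * s + 3 + (if c₁ + 1 < k then 1 else 0) + (if c₁ < c₂ ∧ c₂ + 1 < k then 1 else 0) := by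
  have hk2 : 2 ≤ k := by omega
  -- use `count_up` with `d = 1`
  have g0 := count_up k U U' c₁ c₂ s 1 hU hU' h1 h2 h12 le_rfl (by omega) hb1 hb2 hUU hs hs'
  have a1 : wt (per U (k - 1) (c₁ + 1 + 2)) + wt (per U (c₁ + 1 + 1) (k - 1 - 1)) =
      wt (per U (k - 1) (c₁ + 1)) + s := by
    have g1 : per U (k - 1) ((c₁ + 1 + 2) + (k - 1 - 1)) = per U (k - 1) ((c₁ + 1) + k) := by
      rw [show (c₁ + 1 + 2) + (k - 1 - 1) = (c₁ + 1) + k by omega]
    rw [per_add U (k - 1) (c₁ + 1 + 2) (k - 1 - 1), per_add U (k - 1) (c₁ + 1) k] at g1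
    have g2 : per U (k - 1 + (c₁ + 1 + 2)) (k - 1 - 1) = per U (c₁ + 1 + 1) (k - 1 - 1) := by
      have := per_period U (c₁ + 1 + 1) (k - 1 - 1)
      rw [hU] at this
      rw [show k - 1 + (c₁ + 1 + 2) = c₁ + 1 + 1 + k by omega]
      exact this
    have g3 : wt (per U (k - 1 + (c₁ + 1)) k) = s := by
      have := wt_full U (k - 1 + (c₁ + 1))
      rw [hU] at this
      rw [this, hs]
    rw [g2] at g1
    have g4 := congrArg wt g1
    rw [wt_append, wt_append, g3] at g4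
    exact g4
  have a2 : wt (per U (k - 1) (c₁ + 2)) = wt (per U (k - 1) (c₁ + 1)) := by
    rw [show c₁ + 2 = c₁ + 1 + 1 by omega, per_add, wt_append, per_one, hU,
      show k - 1 + (c₁ + 1) = c₁ + k by omega, Nat.add_mod_right, Nat.mod_eq_of_lt h1, hb1,
      wt_false, Nat.add_zero]
  omega

theorem rea_count {V : Type} [Fintype V] [DecidableEq V] {H : Finset (Finset V)}
    {X D : Finset V} {k p : ℕ} {ε K : ℝ} {q : ℕ} {u v : List Bool} {N a : ℕ} (hK : 0 ≤ K)
    (h : Rea H X k p ε K D q u v N a) : a ≤ N := by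
  obtain ⟨L, h1, h2, -⟩ := h ∅ (Finset.disjoint_empty_left _) (by
    rw [Finset.card_empty]
    push_cast
    exact hK)
  rw [← h1, ← h2]
  exact List.countP_le_length

theorem put (hREL : RelStmt) (hCMO : CmoStmt) (hTKR : TkrStmt) (hPER : PerStmt) : PutStmt := by
  intro V _ _ H X k p j ε K K' W W' c₁ c₂ z hk hF hW hW' h1 h2 h12 hj hp hT hb1 hb2 hWW hK hK'
  obtain ⟨-, hb1'⟩ := getD_of_true hb1
  obtain ⟨-, hb2'⟩ := getD_of_true hb2
  have key : ∀ c c' : ℕ, c < k → c' < k → c ≠ c' → W.getD c false = false →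
      W.getD c' false = false →
      (∀ i < k, W'.getD i false = if i = c ∨ i = c' then true else W.getD i false) →
      Rea H X k p ε K' {z} (2 * k) (cx k W) (cx k W') (4 * k)
        (4 * wt W + 3 + (if c + 1 < k then 1 else 0) + (if c < c' ∧ c' + 1 < k then 1 else 0) +
          wt [decide (z ∈ X)]) := by
    intro c c' hc hc' hcc g1 g2 g3
    obtain ⟨hw1, hw2, hpl⟩ := put_gen hREL hCMO hTKR hPER V H X k p ε K K' false W W' c c'
      (wt W) z hk hF hW hW' hc hc' hcc g1 g2 g3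
      (Or.inl (by rw [wt_false, Nat.mul_zero, Nat.add_zero])) (Or.inl hp) hK
      (fun m₁ m₂ hl hw => hT m₁ m₂ hl (by omega))
    have h3 := count_up2 k W W' c c' (wt W) hW hW' hc hc' hcc g1 g2 g3 rfl hw2
    have h4 : wt (per W (k - 1) (c + 2)) + (2 * wt W + 1 + wt [decide (z ∈ X)]) +
          wt (per W' c (k - 1)) + wt (per W' (c + k - 1) (k - c)) =
        4 * wt W + 3 + (if c + 1 < k then 1 else 0) + (if c < c' ∧ c' + 1 < k then 1 else 0) +
          wt [decide (z ∈ X)] := by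
      rw [← h3]
      omega
    rw [h4] at hpl
    exact hpl
  have key' : ∀ c c' : ℕ, c < k → c' < k → c < c' → W.getD c false = false →
      W.getD c' false = false →
      (∀ i < k, W'.getD i false = if i = c ∨ i = c' then true else W.getD i false) →
      ∃ a : ℕ, a + 1 ≤ 4 * k ∧ Rea H X k p ε K' {z} (2 * k) (cx k W) (cx k W') (4 * k) a ∧
      Rea H X k p ε K' {z} (2 * k) (cx k W) (cx k W') (4 * k) (a + 1) := by
    intro c c' hc hc' hcc g1 g2 g3
    have P1 := key c c' hc hc' (by omega) g1 g2 g3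
    have P2 := key c' c hc' hc (by omega) g2 g1 (by
      intro i hi
      rw [g3 i hi]
      by_cases h : i = c ∨ i = c'
      · rw [if_pos h, if_pos h.symm]
      · rw [if_neg h, if_neg (fun h' => h h'.symm)])
    rw [if_pos (by omega : c + 1 < k)] at P1
    rw [if_neg (by omega : ¬ (c' < c ∧ c + 1 < k)), Nat.add_zero] at P2
    have e : 4 * wt W + 3 + 1 + (if c < c' ∧ c' + 1 < k then 1 else 0) + wt [decide (z ∈ X)] =
        4 * wt W + 3 + (if c' + 1 < k then 1 else 0) + wt [decide (z ∈ X)] + 1 := by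
      by_cases h : c' + 1 < k
      · rw [if_pos ⟨hcc, h⟩, if_pos h]
        omega
      · rw [if_neg (fun h' => h h'.2), if_neg h]
        omega
    rw [e] at P1
    exact ⟨_, rea_count hK' P1, P2, P1⟩
  rcases lt_or_gt_of_ne h12 with h | h
  · exact key' c₁ c₂ h1 h2 h hb1' hb2' hWW
  · exact key' c₂ c₁ h2 h1 h hb2' hb1' (by
      intro i hi
      rw [hWW i hi]
      by_cases h : i = c₁ ∨ i = c₂
      · rw [if_pos h, if_pos h.symm]
      · rw [if_neg h, if_neg (fun h' => h h'.symm)])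

end Pool.Agent.KK.H42
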