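import Pool.Agent.KK.StmtsW
import Pool.Agent.Helper42_KK.W1

/-! MP_747bc0_co, squad KK, block BETA, row SIZ. -/

set_option autoImplicit false

namespace Pool.Agent.KK.H42

theorem goodC_cs {V : Type} [Fintype V] [DecidableEq V] (H : Finset (Finset V)) (X : Finset V)
    (s : List (Slot V)) : GoodC H Xᶜ (s.map cs) = GoodC H X s := by
  ext e
  constructor
  · rintro ⟨h1, h2, h3⟩
    exact ⟨(forall2_cs X s e).1 h1, h2, h3⟩
  · rintro ⟨h1, h2, h3⟩
    exact ⟨(forall2_cs X s e).2 h1, h2, h3⟩

theorem near_compl {V : Type} [Fintype V] [DecidableEq V] (H : Finset (Finset V)) (X : Finset V)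
    (k p : ℕ) (γ : ℝ) (hp : p < 2) (h : Near H X k p γ) : Near H Xᶜ k ((k + p) % 2) γ := by
  intro v u₁ u₂ hu
  have h1 := h v (u₁.map not) (u₂.map not) (by
    rw [List.length_map, List.length_map]
    exact hu)
  have e1 : (fw (u₁.map not) ++ Sum.inl v :: fw (u₂.map not) : List (Slot V)).map cs =
      fw u₁ ++ Sum.inl v :: fw u₂ := by
    rw [List.map_append, List.map_cons, fw_cs, fw_cs, map_not_not, map_not_not]
    rfl
  rw [← badC_cs, ← goodC_cs, e1] at h1
  have e2 : wt (u₁ ++ decide (v ∈ Xᶜ) :: u₂) +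
      wt (u₁.map not ++ decide (v ∈ X) :: u₂.map not) = k := by
    have h3 := wt_not (u₁ ++ decide (v ∈ Xᶜ) :: u₂)
    have e3 : (u₁ ++ decide (v ∈ Xᶜ) :: u₂).map not =
        u₁.map not ++ decide (v ∈ X) :: u₂.map not := by
      rw [List.map_append, List.map_cons]
      congr 2
      by_cases hv : v ∈ X
      · rw [decide_eq_true hv, decide_eq_false (fun h5 => (Finset.mem_compl.1 h5) hv)]
        rfl
      · rw [decide_eq_false hv, decide_eq_true (Finset.mem_compl.2 hv)]
        rfl
    rw [e3, List.length_append, List.length_cons] at h3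
    omega
  exact ⟨fun h4 => h1.1 (by omega), fun h4 => h1.2 (by omega)⟩

section core

variable {V : Type} [Fintype V] [DecidableEq V]

/-- admissible next vertices -/
def nxt (H : Finset (Finset V)) (X : Finset V) (k : ℕ) (l : List V) : Finset V :=
  Finset.univ.filter fun v => v ∉ l ∧ v ∉ X ∧ (l.length = k - 1 → insert v l.toFinset ∈ H)

/-- greedy family -/
def fam (H : Finset (Finset V)) (X : Finset V) (k : ℕ) (z : V) : ℕ → Finset (List V)
  | 0 => {[z]}
  | m + 1 => (fam H X k z m).biUnion fun l => (nxt H X k l).image fun v => l ++ [v]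

theorem fam_inv (H : Finset (Finset V)) (X : Finset V) (k : ℕ) (z : V) (hk : 2 ≤ k) (m : ℕ) :
    ∀ l ∈ fam H X k z m, l.length = m + 1 ∧ l.Nodup ∧
      List.Forall₂ (Fit X) (Sum.inl z :: fw (List.replicate m false)) l ∧
      (m = k - 1 → l.toFinset ∈ H) := by
  induction m with
  | zero =>
    intro l hl
    have hl' : l = [z] := Finset.mem_singleton.1 hl
    subst hl'
    refine ⟨rfl, List.nodup_singleton z, List.Forall₂.cons rfl List.Forall₂.nil, fun h => ?_⟩
    omega
  | succ m ih =>
    intro l hl
    obtain ⟨l', hl', hl2⟩ := Finset.mem_biUnion.1 hl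
    obtain ⟨v, hv, rfl⟩ := Finset.mem_image.1 hl2
    obtain ⟨h1, h2, h3, h4⟩ := ih l' hl'
    obtain ⟨-, hv1, hv2, hv3⟩ := Finset.mem_filter.1 hv
    refine ⟨by rw [List.length_append, h1]; rfl, ?_, ?_, ?_⟩
    · rw [List.nodup_append]
      refine ⟨h2, List.nodup_singleton v, ?_⟩
      intro a ha b hb hab
      have hb' : b = v := List.mem_singleton.1 hb
      subst hb'
      subst hab
      exact hv1 ha
    · have e : (Sum.inl z :: fw (List.replicate (m + 1) false) : List (Slot V)) =
          (Sum.inl z :: fw (List.replicate m false)) ++ [Sum.inr false] := by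
        rw [List.replicate_succ', fw, fw, List.map_append]
        rfl
      rw [e]
      refine List.rel_append h3 (List.Forall₂.cons ?_ List.Forall₂.nil)
      change v ∈ X ↔ false = true
      constructor
      · intro h5
        exact absurd h5 hv2
      · intro h5
        exact absurd h5 (by decide)
    · intro hm
      have h5 := hv3 (by omega)
      have e : (l' ++ [v]).toFinset = insert v l'.toFinset := by
        ext x
        simp only [List.mem_toFinset, List.mem_append, List.mem_singleton, Finset.mem_insert]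
        exact or_comm
      rw [e]
      exact h5

theorem fam_card (H : Finset (Finset V)) (X : Finset V) (k : ℕ) (z : V) (c : ℝ) (hc : 0 ≤ c)
    (m : ℕ) (h : ∀ i < m, ∀ l ∈ fam H X k z i, c ≤ ((nxt H X k l).card : ℝ)) :
    c ^ m ≤ ((fam H X k z m).card : ℝ) := by
  induction m with
  | zero =>
    have e : (fam H X k z 0).card = 1 := Finset.card_singleton _
    rw [e, pow_zero, Nat.cast_one]
  | succ m ih =>
    have h1 := ih fun i hi => h i (by omega)
    have h2 : (fam H X k z (m + 1)).card = ∑ l ∈ fam H X k z m, (nxt H X k l).card := by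
      change ((fam H X k z m).biUnion fun l => (nxt H X k l).image fun v => l ++ [v]).card = _
      rw [Finset.card_biUnion]
      · refine Finset.sum_congr rfl fun l _ => ?_
        rw [Finset.card_image_of_injective]
        intro a b hab
        have hab' := List.append_cancel_left hab
        exact List.singleton_injective hab'
      · intro l _ l' _ hll'
        rw [Function.onFun, Finset.disjoint_left]
        intro x hx hx'
        obtain ⟨a, -, ha⟩ := Finset.mem_image.1 hx
        obtain ⟨b, -, hb⟩ := Finset.mem_image.1 hx'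
        apply hll'
        have h3 := congrArg List.dropLast (ha.trans hb.symm)
        rw [List.dropLast_concat, List.dropLast_concat] at h3
        exact h3
    rw [h2, Nat.cast_sum, pow_succ]
    calc c ^ m * c ≤ ((fam H X k z m).card : ℝ) * c := mul_le_mul_of_nonneg_right h1 hc
      _ = ∑ l ∈ fam H X k z m, c := by rw [Finset.sum_const, nsmul_eq_mul]
      _ ≤ ∑ l ∈ fam H X k z m, ((nxt H X k l).card : ℝ) :=
        Finset.sum_le_sum fun l hl => h m (by omega) l hl

theorem nxt_card (H : Finset (Finset V)) (X : Finset V) (k : ℕ) (η : ℝ) (hk : 3 ≤ k)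
    (hn : 4 * k ≤ Fintype.card V) (hD : Dirac H k)
    (hX : (X.card : ℝ) < (1 / 2 - η) * (Fintype.card V : ℝ)) (hη : 0 < η) (l : List V)
    (hl : l.Nodup) (hlk : l.length + 1 ≤ k) :
    min η (1 / 4) * (Fintype.card V : ℝ) ≤ ((nxt H X k l).card : ℝ) := by
  have hn0 : (0 : ℝ) ≤ (Fintype.card V : ℝ) := Nat.cast_nonneg _
  by_cases h : l.length = k - 1
  · have hS : l.toFinset.card = k - 1 := by rw [List.toFinset_card_of_nodup hl, h]
    have h1 := hD l.toFinset hS
    have h2 : nb H l.toFinset \ X ⊆ nxt H X k l := by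
      intro v hv
      obtain ⟨hv1, hv2⟩ := Finset.mem_sdiff.1 hv
      obtain ⟨-, hv3, hv4⟩ := Finset.mem_filter.1 hv1
      exact Finset.mem_filter.2 ⟨Finset.mem_univ _, fun h3 => hv3 (List.mem_toFinset.2 h3), hv2,
        fun _ => hv4⟩
    have h3 := Finset.card_le_card h2
    have h4 := Finset.le_card_sdiff X (nb H l.toFinset)
    have h5 : (nb H l.toFinset).card ≤ (nxt H X k l).card + X.card := by omega
    have h6 : ((nb H l.toFinset).card : ℝ) ≤ ((nxt H X k l).card : ℝ) + (X.card : ℝ) := by
      exact_mod_cast h5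
    have h7 : (Fintype.card V : ℝ) ≤ 2 * ((nb H l.toFinset).card : ℝ) := by exact_mod_cast h1
    have h8 : min η (1 / 4) * (Fintype.card V : ℝ) ≤ η * (Fintype.card V : ℝ) :=
      mul_le_mul_of_nonneg_right (min_le_left _ _) hn0
    linarith
  · have h2 : (Xᶜ \ l.toFinset) ⊆ nxt H X k l := by
      intro v hv
      obtain ⟨hv1, hv2⟩ := Finset.mem_sdiff.1 hv
      exact Finset.mem_filter.2 ⟨Finset.mem_univ _, fun h3 => hv2 (List.mem_toFinset.2 h3),
        Finset.mem_compl.1 hv1, fun h3 => absurd h3 h⟩
    have h3 := Finset.card_le_card h2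
    have h4 := Finset.le_card_sdiff l.toFinset Xᶜ
    have h5 : l.toFinset.card ≤ k := by
      have := List.toFinset_card_le l
      omega
    have h6 : Fintype.card V ≤ (nxt H X k l).card + X.card + k := by
      have h7 := Finset.card_compl X
      have h8 := Finset.card_le_univ X
      omega
    have h7 : (Fintype.card V : ℝ) ≤ ((nxt H X k l).card : ℝ) + (X.card : ℝ) + (k : ℝ) := by
      exact_mod_cast h6
    have h8 : min η (1 / 4) * (Fintype.card V : ℝ) ≤ 1 / 4 * (Fintype.card V : ℝ) :=
      mul_le_mul_of_nonneg_right (min_le_right _ _) hn0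
    have h9 : 4 * (k : ℝ) ≤ (Fintype.card V : ℝ) := by exact_mod_cast hn
    have h10 : 0 ≤ η * (Fintype.card V : ℝ) := mul_nonneg hη.le hn0
    linarith

theorem siz_core (H : Finset (Finset V)) (X : Finset V) (k p : ℕ) (η : ℝ) (hk : 3 ≤ k)
    (hη : 0 < η) (hn : 4 * k ≤ Fintype.card V) (hD : Dirac H k) (hp : p < 2)
    (hN : Near H X k p (min η (1 / 4) ^ (k - 1) / 2)) (hX : X.Nonempty) (hY : Xᶜ.Nonempty) :
    (1 / 2 - η) * (Fintype.card V : ℝ) ≤ X.card := by
  by_contra hcon
  have hcon' := not_le.1 hcon
  obtain ⟨z, hz⟩ : ∃ z : V, wt (decide (z ∈ X) :: List.replicate (k - 1) false) % 2 ≠ p := by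
    have hrep : (List.replicate (k - 1) false).count true = 0 := by
      rw [List.count_replicate]
      rfl
    rcases Nat.lt_or_ge p 1 with hp1 | hp1
    · obtain ⟨z, hz⟩ := hX
      refine ⟨z, ?_⟩
      rw [decide_eq_true hz, wt, List.count_cons_self, hrep]
      omega
    · obtain ⟨z, hz⟩ := hY
      refine ⟨z, ?_⟩
      rw [decide_eq_false (Finset.mem_compl.1 hz), wt, List.count_cons_of_ne (by decide), hrep]
      omega
  have h1 := (hN z [] (List.replicate (k - 1) false) (by
    rw [List.length_replicate, List.length_nil]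
    omega)).2 hz
  have hc : (0 : ℝ) < min η (1 / 4) := lt_min hη (by norm_num)
  have hn1 : (0 : ℝ) < (Fintype.card V : ℝ) := by
    have : 0 < Fintype.card V := by omega
    exact_mod_cast this
  have h2 := fam_card H X k z (min η (1 / 4) * (Fintype.card V : ℝ)) (by positivity) (k - 1)
    (fun i hi l hl => by
      obtain ⟨h3, h4, -, -⟩ := fam_inv H X k z (by omega) i l hl
      exact nxt_card H X k η hk hn hD hcon' hη l h4 (by omega))
  have h3 : (fam H X k z (k - 1)).card ≤
      (GoodC H X (fw [] ++ Sum.inl z :: fw (List.replicate (k - 1) false))).ncard := by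
    rw [← Set.ncard_coe_finset]
    refine Set.ncard_le_ncard ?_ ?_
    · intro l hl
      obtain ⟨-, h4, h5, h6⟩ := fam_inv H X k z (by omega) (k - 1) l hl
      exact ⟨h5, h4, h6 rfl⟩
    · refine (List.finite_length_eq V
        (fw [] ++ Sum.inl z :: fw (List.replicate (k - 1) false) : List (Slot V)).length).subset
        fun _ he => he.1.length_eq.symm
  have h4 : ((fam H X k z (k - 1)).card : ℝ) ≤
      ((GoodC H X (fw [] ++ Sum.inl z :: fw (List.replicate (k - 1) false))).ncard : ℝ) := by
    exact_mod_cast h3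
  rw [mul_pow] at h2
  have h5 : 0 < min η (1 / 4) ^ (k - 1) * (Fintype.card V : ℝ) ^ (k - 1) := by positivity
  have h6 := (h2.trans h4).trans h1
  linarith

end core

theorem siz : SizStmt := by
  intro k hk η hη
  have hc : (0 : ℝ) < min η (1 / 4) := lt_min hη (by norm_num)
  refine ⟨min η (1 / 4) ^ (k - 1) / 2, by positivity, 4 * k, ?_⟩
  intro V _ _ H X p hn hD hp hN hX hY
  refine ⟨siz_core H X k p η hk hη hn hD hp hN hX hY, ?_⟩
  have h1 := siz_core H Xᶜ k ((k + p) % 2) η hk hη hn hD (Nat.mod_lt _ (by norm_num))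
    (near_compl H X k p _ hp hN) hY (by rw [compl_compl]; exact hX)
  have h2 : (Xᶜ).card + X.card = Fintype.card V := by
    have h3 := Finset.card_add_card_compl X
    omega
  have h3 : ((Xᶜ).card : ℝ) + (X.card : ℝ) = (Fintype.card V : ℝ) := by exact_mod_cast h2
  linarith

end Pool.Agent.KK.H42
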